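import Mathlib
import Pool.Agent.N266.TI.Stm

set_option autoImplicit false

/-!
Project TI: mean value identity with an explicit kernel.
-/

namespace Pool.Agent.N950.TI

open MeasureTheory Metric Set
open Pool.Agent.N266.TI

/-! ### powers of the positive part -/

theorem pos_pow_deriv (k : ℕ) (x : ℝ) :
    HasDerivAt (fun y : ℝ => (max y 0) ^ (k + 2)) (((k : ℝ) + 2) * (max x 0) ^ (k + 1)) x := by
  rcases lt_trichotomy x 0 with h | h | h
  · have e1 : (fun y : ℝ => (max y 0) ^ (k + 2)) =ᶠ[nhds x] fun _ => 0 := by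
      filter_upwards [gt_mem_nhds h] with y hy
      rw [max_eq_right (le_of_lt hy)]
      simp
    rw [max_eq_right h.le, zero_pow (by omega), mul_zero]
    exact (hasDerivAt_const x (0 : ℝ)).congr_of_eventuallyEq e1
  · subst h
    rw [max_self, zero_pow (by omega), mul_zero]
    have h1 : (fun y : ℝ => (max y 0) ^ (k + 2)) =O[nhds 0] fun y : ℝ => ‖y - 0‖ ^ (k + 2) := by
      refine Asymptotics.IsBigO.of_bound 1 (Filter.Eventually.of_forall fun y => ?_)
      rw [one_mul, norm_pow, norm_pow, sub_zero, norm_norm]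
      refine pow_le_pow_left₀ (norm_nonneg _) ?_ _
      rw [Real.norm_eq_abs, Real.norm_eq_abs, abs_of_nonneg (le_max_right _ _)]
      exact max_le (le_abs_self y) (abs_nonneg y)
    have h2 := h1.hasFDerivAt (𝕜 := ℝ) (by omega)
    have h3 := h2.hasDerivAt
    simpa using h3
  · have e1 : (fun y : ℝ => (max y 0) ^ (k + 2)) =ᶠ[nhds x] fun y => y ^ (k + 2) := by
      filter_upwards [lt_mem_nhds h] with y hy
      rw [max_eq_left (le_of_lt hy)]
    rw [max_eq_left h.le]
    have h2 : HasDerivAt (fun y : ℝ => y ^ (k + 2)) (((k : ℝ) + 2) * x ^ (k + 1)) x := by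
      simpa using hasDerivAt_pow (k + 2) x
    exact h2.congr_of_eventuallyEq e1

/-- `1 - |z|²` -/
noncomputable def pz {n : ℕ} (z : E n) : ℝ := 1 - ‖z‖ ^ 2

theorem pz_cont {n : ℕ} : Continuous (pz (n := n)) := by
  unfold pz
  fun_prop

theorem pz_deriv {n : ℕ} (z : E n) : HasFDerivAt (pz (n := n)) (-(2 • (innerSL ℝ) z)) z := by
  have h := (hasStrictFDerivAt_norm_sq z).hasFDerivAt.const_sub 1
  exact h

theorem pz_smooth {n : ℕ} : ContDiff ℝ 1 (pz (n := n)) := by
  unfold pz
  exact contDiff_const.sub (contDiff_norm_sq ℝ)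

/-- the kernel `(1 - |z|²)_+^(k+2)` -/
noncomputable def ker {n : ℕ} (k : ℕ) (z : E n) : ℝ := (max (pz z) 0) ^ (k + 2)

theorem ker_cont {n : ℕ} (k : ℕ) : Continuous (ker (n := n) k) := by
  have := pz_cont (n := n)
  unfold ker
  fun_prop

theorem ker_deriv {n : ℕ} (k : ℕ) (z : E n) : HasFDerivAt (ker (n := n) k)
    ((((k : ℝ) + 2) * (max (pz z) 0) ^ (k + 1)) • (-(2 • (innerSL ℝ) z) : E n →L[ℝ] ℝ)) z :=
  (pos_pow_deriv k (pz z)).comp_hasFDerivAt z (pz_deriv z)

theorem ker_fderiv {n : ℕ} (k : ℕ) (z : E n) (i : Fin n) : fderiv ℝ (ker (n := n) k) z (e i) =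
    -(2 * ((k : ℝ) + 2) * z i * (max (pz z) 0) ^ (k + 1)) := by
  rw [(ker_deriv k z).fderiv]
  have h1 : ((innerSL ℝ) z) (e i) = z i := by
    rw [innerSL_apply_apply, EuclideanSpace.inner_single_right]
    simp
  simp only [smul_apply, neg_apply, smul_eq_mul, h1]
  simp only [nsmul_eq_mul, Nat.cast_ofNat]
  ring

theorem ker_diff {n : ℕ} (k : ℕ) : Differentiable ℝ (ker (n := n) k) :=
  fun z => (ker_deriv k z).differentiableAt

theorem ker_smooth {n : ℕ} (k : ℕ) : ContDiff ℝ 1 (ker (n := n) k) := by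
  rw [contDiff_one_iff_fderiv]
  refine ⟨ker_diff k, ?_⟩
  have h1 : fderiv ℝ (ker (n := n) k) = fun z =>
      ((((k : ℝ) + 2) * (max (pz z) 0) ^ (k + 1)) • (-(2 • (innerSL ℝ) z) : E n →L[ℝ] ℝ)) := by
    funext z
    exact (ker_deriv k z).fderiv
  rw [h1]
  have h2 := pz_cont (n := n)
  have h3 : Continuous fun z : E n => (innerSL ℝ) z := (innerSL ℝ).continuous
  have h4 : Continuous fun z : E n => ((k : ℝ) + 2) * (max (pz z) 0) ^ (k + 1) := by fun_prop
  have h5 : Continuous fun z : E n => (-(2 • (innerSL ℝ) z) : E n →L[ℝ] ℝ) := (h3.const_smul 2).neg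
  exact h4.smul h5

theorem ker_zero {n : ℕ} (k : ℕ) (z : E n) (hz : 1 ≤ ‖z‖) : ker k z = 0 := by
  unfold ker
  have : pz z ≤ 0 := by
    unfold pz
    nlinarith [norm_nonneg z]
  rw [max_eq_right this, zero_pow (by omega)]

theorem ker_nonneg {n : ℕ} (k : ℕ) (z : E n) : 0 ≤ ker k z := by
  unfold ker
  positivity

theorem supp_of {n : ℕ} (f : E n → ℝ) (h : ∀ z, 1 ≤ ‖z‖ → f z = 0) : HasCompactSupport f := by
  refine HasCompactSupport.intro (isCompact_closedBall (0 : E n) 1) fun z hz => h z ?_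
  rw [mem_closedBall_zero_iff, not_le] at hz
  exact hz.le

theorem int_of {n : ℕ} (f : E n → ℝ) (hc : Continuous f) (h : ∀ z, 1 ≤ ‖z‖ → f z = 0) :
    Integrable f := hc.integrable_of_hasCompactSupport (supp_of f h)

theorem coord_le {n : ℕ} (z : E n) (i : Fin n) : |z i| ≤ ‖z‖ := by
  have := EuclideanSpace.norm_eq z
  have h1 : |z i| ^ 2 ≤ ‖z‖ ^ 2 := by
    rw [EuclideanSpace.norm_sq_eq z]
    have := Finset.single_le_sum (f := fun j => ‖z j‖ ^ 2) (fun j _ => sq_nonneg _)
      (Finset.mem_univ i)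
    simpa using this
  exact le_of_sq_le_sq h1 (norm_nonneg z) |> fun h => by simpa using h

/-! ### integrals with parameters -/

theorem par_cont {n : ℕ} (f : ℝ → E n → ℝ) (hf : Continuous (Function.uncurry f))
    (h0 : ∀ t z, 1 ≤ ‖z‖ → f t z = 0) : Continuous fun t => ∫ z, f t z := by
  have h1 := continuous_parametric_integral_of_continuous (μ := (volume : Measure (E n))) hf
    (isCompact_closedBall (0 : E n) 1)
  refine h1.congr fun t => ?_
  refine setIntegral_eq_integral_of_forall_compl_eq_zero fun z hz => h0 t z ?_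
  rw [mem_closedBall_zero_iff, not_le] at hz
  exact hz.le

theorem par_deriv {n : ℕ} (g f : ℝ → E n → ℝ) (hg : Continuous (Function.uncurry g))
    (hf : Continuous (Function.uncurry f)) (hg0 : ∀ t z, 1 ≤ ‖z‖ → g t z = 0)
    (hf0 : ∀ t z, 1 ≤ ‖z‖ → f t z = 0) (hd : ∀ t z, HasDerivAt (fun s => g s z) (f t z) t)
    (t : ℝ) : HasDerivAt (fun s => ∫ z, g s z) (∫ z, f t z) t := by
  have hgc : ∀ s, Continuous (g s) := fun s => hg.comp (Continuous.prodMk_right s)
  have hfc : ∀ s, Continuous (f s) := fun s => hf.comp (Continuous.prodMk_right s)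
  obtain ⟨M, hM⟩ := ((isCompact_closedBall t 1).prod
    (isCompact_closedBall (0 : E n) 1)).exists_bound_of_continuousOn hf.continuousOn
  have hb : ∀ z, ∀ s ∈ ball t 1, ‖f s z‖ ≤ (closedBall (0 : E n) 1).indicator (fun _ => M) z := by
    intro z s hs
    by_cases hz : z ∈ closedBall (0 : E n) 1
    · rw [Set.indicator_of_mem hz]
      exact hM (s, z) ⟨ball_subset_closedBall hs, hz⟩
    · rw [Set.indicator_of_notMem hz, hf0 s z, norm_zero]
      rw [mem_closedBall_zero_iff, not_le] at hz
      exact hz.le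
  have hbi : Integrable ((closedBall (0 : E n) 1).indicator (fun _ => M)) :=
    (integrable_indicator_iff measurableSet_closedBall).2
      (integrableOn_const (isCompact_closedBall _ _).measure_lt_top.ne)
  exact (hasDerivAt_integral_of_dominated_loc_of_deriv_le (ball_mem_nhds t one_pos)
    (Filter.Eventually.of_forall fun s => (hgc s).aestronglyMeasurable)
    (int_of _ (hgc t) (hg0 t)) (hfc t).aestronglyMeasurable
    (Filter.Eventually.of_forall hb) hbi
    (Filter.Eventually.of_forall fun z s _ => hd s z)).2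

/-! ### the identity -/

/-- one integration by parts -/
theorem parts {n : ℕ} (u T : E n → ℝ) (hu : ContDiff ℝ 1 u) (hT : ContDiff ℝ 1 T)
    (hT0 : ∀ z, 1 ≤ ‖z‖ → T z = 0) (i : Fin n) :
    ∫ z, u z * fderiv ℝ T z (e i) = - ∫ z, fderiv ℝ u z (e i) * T z := by
  have hs := supp_of T hT0
  have hTc : Continuous fun z => fderiv ℝ T z (e i) :=
    (hT.continuous_fderiv one_ne_zero).clm_apply continuous_const
  have huc : Continuous fun z => fderiv ℝ u z (e i) :=
    (hu.continuous_fderiv one_ne_zero).clm_apply continuous_const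
  have hs' : HasCompactSupport fun z => fderiv ℝ T z (e i) := hs.fderiv_apply (𝕜 := ℝ) _
  refine integral_mul_fderiv_eq_neg_fderiv_mul_of_integrable ?_ ?_ ?_
    (fun z _ => hu.differentiable one_ne_zero z) (fun z _ => hT.differentiable one_ne_zero z)
  · exact (huc.mul hT.continuous).integrable_of_hasCompactSupport hs.mul_left
  · exact (hu.continuous.mul hTc).integrable_of_hasCompactSupport hs'.mul_left
  · exact (hu.continuous.mul hT.continuous).integrable_of_hasCompactSupport hs.mul_left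

theorem fderiv_sum {n : ℕ} (L : E n →L[ℝ] ℝ) (z : E n) : L z = ∑ i, z i * L (e i) := by
  have h := (EuclideanSpace.basisFun (Fin n) ℝ).sum_repr z
  have h2 : z = ∑ i, z i • (e i : E n) := by
    conv_lhs => rw [← h]
    refine Finset.sum_congr rfl fun i _ => ?_
    simp
  conv_lhs => rw [h2]
  rw [map_sum]
  refine Finset.sum_congr rfl fun i _ => ?_
  rw [map_smul, smul_eq_mul]

theorem ident {n : ℕ} (v : E n → ℝ) (hv : ContDiff ℝ 2 v) (x : E n) (s : ℝ) (σ T : E n → ℝ)
    (hT : ContDiff ℝ 1 T) (hT0 : ∀ z, 1 ≤ ‖z‖ → T z = 0)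
    (hTσ : ∀ z i, fderiv ℝ T z (e i) = -(z i * σ z)) :
    ∫ z, fderiv ℝ v (x - s • z) (-z) * σ z = s * ∫ z, lap v (x - s • z) * T z := by
  have hD : ∀ i : Fin n, ContDiff ℝ 1 fun y => fderiv ℝ v y (e i) := fun i =>
    (hv.fderiv_right (m := 1) (by norm_num)).clm_apply contDiff_const
  have haff : ContDiff ℝ 1 fun z : E n => x - s • z := by fun_prop
  have hu : ∀ i : Fin n, ContDiff ℝ 1 fun z : E n => fderiv ℝ v (x - s • z) (e i) := fun i =>
    (hD i).comp haff
  have hud : ∀ (i : Fin n) (z : E n), fderiv ℝ (fun z : E n => fderiv ℝ v (x - s • z) (e i)) z (e i) =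
      -s * fderiv ℝ (fun y => fderiv ℝ v y (e i)) (x - s • z) (e i) := by
    intro i z
    have h1 : HasFDerivAt (fun z : E n => x - s • z) (-(s • ContinuousLinearMap.id ℝ (E n))) z :=
      ((hasFDerivAt_id z).const_smul s).const_sub x
    have h2 := ((hD i).differentiable one_ne_zero (x - s • z)).hasFDerivAt.comp z h1
    have h3 := h2.fderiv
    rw [show (fun z : E n => fderiv ℝ v (x - s • z) (e i)) =
      (fun y => fderiv ℝ v y (e i)) ∘ (fun z : E n => x - s • z) from rfl, h3]
    simp
  have hpt : ∀ z, fderiv ℝ v (x - s • z) (-z) * σ z =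
      ∑ i, fderiv ℝ v (x - s • z) (e i) * fderiv ℝ T z (e i) := by
    intro z
    rw [map_neg, fderiv_sum (fderiv ℝ v (x - s • z)) z, neg_mul, Finset.sum_mul,
      ← Finset.sum_neg_distrib]
    refine Finset.sum_congr rfl fun i _ => ?_
    rw [hTσ]
    ring
  have hs := supp_of T hT0
  have hTc : ∀ i, Continuous fun z => fderiv ℝ T z (e i) := fun i =>
    (hT.continuous_fderiv one_ne_zero).clm_apply continuous_const
  have hi1 : ∀ i : Fin n, Integrable fun z => fderiv ℝ v (x - s • z) (e i) * fderiv ℝ T z (e i) := by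
    intro i
    have hs' : HasCompactSupport fun z => fderiv ℝ T z (e i) := hs.fderiv_apply (𝕜 := ℝ) _
    exact ((hu i).continuous.mul (hTc i)).integrable_of_hasCompactSupport hs'.mul_left
  have hi2 : ∀ i : Fin n, Integrable fun z =>
      s * (fderiv ℝ (fun y => fderiv ℝ v y (e i)) (x - s • z) (e i) * T z) := by
    intro i
    have h1 : Continuous fun z : E n => fderiv ℝ (fun y => fderiv ℝ v y (e i)) (x - s • z) (e i) :=
      (((hD i).continuous_fderiv one_ne_zero).comp haff.continuous).clm_apply continuous_const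
    exact ((h1.mul hT.continuous).integrable_of_hasCompactSupport hs.mul_left).const_mul s
  simp only [hpt]
  rw [integral_finsetSum _ fun i _ => hi1 i]
  have e2 : ∀ i : Fin n, ∫ z, fderiv ℝ v (x - s • z) (e i) * fderiv ℝ T z (e i) =
      ∫ z, s * (fderiv ℝ (fun y => fderiv ℝ v y (e i)) (x - s • z) (e i) * T z) := by
    intro i
    rw [parts _ T (hu i) hT hT0 i, ← integral_neg]
    refine integral_congr_ae (Filter.Eventually.of_forall fun z => ?_)
    show -(fderiv ℝ (fun z : E n => fderiv ℝ v (x - s • z) (e i)) z (e i) * T z) = _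
    rw [hud]
    ring
  rw [Finset.sum_congr rfl fun i _ => e2 i, ← integral_finsetSum _ fun i _ => hi2 i,
    ← integral_const_mul]
  refine integral_congr_ae (Filter.Eventually.of_forall fun z => ?_)
  show ∑ i, s * (fderiv ℝ (fun y => fderiv ℝ v y (e i)) (x - s • z) (e i) * T z) =
    s * (lap v (x - s • z) * T z)
  unfold lap
  rw [← Finset.mul_sum, Finset.sum_mul]

theorem lap_cont {n : ℕ} (v : E n → ℝ) (hv : ContDiff ℝ 2 v) : Continuous (lap v) := by
  unfold lap
  refine continuous_finsetSum _ fun i _ => ?_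
  have hD : ContDiff ℝ 1 fun y => fderiv ℝ v y (e i) :=
    (hv.fderiv_right (m := 1) (by norm_num)).clm_apply contDiff_const
  exact (hD.continuous_fderiv one_ne_zero).clm_apply continuous_const

theorem main_ident {n : ℕ} (v : E n → ℝ) (hv : ContDiff ℝ 2 v) (x : E n) (r : ℝ)
    (σ T : E n → ℝ) (hσ : Continuous σ) (hσ0 : ∀ z, 1 ≤ ‖z‖ → σ z = 0) (hσ1 : ∫ z, σ z = 1)
    (hT : ContDiff ℝ 1 T) (hT0 : ∀ z, 1 ≤ ‖z‖ → T z = 0)
    (hTσ : ∀ z i, fderiv ℝ T z (e i) = -(z i * σ z)) :
    v x = (∫ z, v (x - r • z) * σ z) -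
      r ^ 2 * ∫ t in (0 : ℝ)..1, t * ∫ z, lap v (x - (t * r) • z) * T z := by
  have hv1 : ContDiff ℝ 1 v := hv.of_le (by norm_num)
  have hvd : Differentiable ℝ v := hv1.differentiable one_ne_zero
  set g : ℝ → E n → ℝ := fun t z => v (x - (t * r) • z) * σ z with hg
  set f : ℝ → E n → ℝ := fun t z => (fderiv ℝ v (x - (t * r) • z) (-(r • z))) * σ z with hf
  have haff : Continuous fun p : ℝ × E n => x - (p.1 * r) • p.2 := by fun_prop
  have hgc : Continuous (Function.uncurry g) := by
    show Continuous fun p : ℝ × E n => v (x - (p.1 * r) • p.2) * σ p.2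
    exact (hv.continuous.comp haff).mul (hσ.comp continuous_snd)
  have hfc : Continuous (Function.uncurry f) := by
    show Continuous fun p : ℝ × E n => (fderiv ℝ v (x - (p.1 * r) • p.2) (-(r • p.2))) * σ p.2
    refine Continuous.mul ?_ (hσ.comp continuous_snd)
    exact ((hv1.continuous_fderiv one_ne_zero).comp haff).clm_apply (by fun_prop)
  have hd : ∀ t z, HasDerivAt (fun s => g s z) (f t z) t := by
    intro t z
    have h1 : HasDerivAt (fun s : ℝ => x - (s * r) • z) (-(r • z)) t := by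
      have h2 : HasDerivAt (fun s : ℝ => (s * r) • z) (r • z) t := by
        have := ((hasDerivAt_id t).mul_const r).smul_const z
        simpa using this
      exact h2.const_sub x
    exact ((hvd _).hasFDerivAt.comp_hasDerivAt t h1).mul_const (σ z)
  have hF := fun t => par_deriv g f hgc hfc (fun t z hz => by simp only [hg, hσ0 z hz, mul_zero])
    (fun t z hz => by simp only [hf, hσ0 z hz, mul_zero]) hd t
  have hfv : ∀ t, ∫ z, f t z = r ^ 2 * (t * ∫ z, lap v (x - (t * r) • z) * T z) := by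
    intro t
    have h1 : ∀ z, f t z = r * (fderiv ℝ v (x - (t * r) • z) (-z) * σ z) := by
      intro z
      simp only [hf]
      rw [← smul_neg, map_smul, smul_eq_mul]
      ring
    simp only [h1]
    rw [integral_const_mul, ident v hv x (t * r) σ T hT hT0 hTσ]
    ring
  have hlc : Continuous fun t : ℝ => r ^ 2 * (t * ∫ z, lap v (x - (t * r) • z) * T z) := by
    refine continuous_const.mul (continuous_id.mul ?_)
    refine par_cont (fun t z => lap v (x - (t * r) • z) * T z) ?_ fun t z hz => by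
      simp only [hT0 z hz, mul_zero]
    show Continuous fun p : ℝ × E n => lap v (x - (p.1 * r) • p.2) * T p.2
    exact ((lap_cont v hv).comp haff).mul (hT.continuous.comp continuous_snd)
  have hftc := intervalIntegral.integral_eq_sub_of_hasDerivAt (a := 0) (b := 1)
    (f := fun t => ∫ z, g t z) (f' := fun t => r ^ 2 * (t * ∫ z, lap v (x - (t * r) • z) * T z))
    (fun t _ => by
      have := hF t
      rwa [hfv t] at this) (hlc.intervalIntegrable 0 1)
  rw [intervalIntegral.integral_const_mul] at hftc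
  have e0 : ∫ z, g 0 z = v x := by
    simp only [hg, zero_mul, zero_smul, sub_zero]
    rw [integral_const_mul, hσ1, mul_one]
  have e1 : ∫ z, g 1 z = ∫ z, v (x - r • z) * σ z := by
    simp only [hg, one_mul]
  rw [e0, e1] at hftc
  linarith

theorem t_MV1 : MV1 := by
  intro n _
  have hI : 0 < ∫ z : E n, ker 0 z :=
    (ker_cont 0).integral_pos_of_hasCompactSupport_nonneg_nonzero (x := 0)
      (supp_of _ (ker_zero 0)) (ker_nonneg 0) (by
        unfold ker pz
        simp)
  obtain ⟨c0, hc0⟩ : ∃ c0 : ℝ, c0 = (∫ z : E n, ker 0 z)⁻¹ := ⟨_, rfl⟩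
  have hc0p : 0 < c0 := by rw [hc0]; positivity
  refine ⟨fun z => c0 * ker 0 z, fun z => c0 / 6 * ker 1 z, 8, c0 * (7 / 16) ^ 2, by norm_num,
    by positivity, contDiff_const.mul (ker_smooth 0), continuous_const.mul (ker_cont 1),
    fun z => mul_nonneg hc0p.le (ker_nonneg 0 z), fun z => mul_nonneg (by positivity)
      (ker_nonneg 1 z), fun z hz => ⟨?_, ?_⟩, ?_, ?_, ?_, ?_⟩
  · show c0 * ker 0 z = 0
    rw [ker_zero 0 z hz, mul_zero]
  · show c0 / 6 * ker 1 z = 0
    rw [ker_zero 1 z hz, mul_zero]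
  · rw [integral_const_mul, hc0]
    exact inv_mul_cancel₀ hI.ne'
  · intro z hz
    refine mul_le_mul_of_nonneg_left ?_ hc0p.le
    unfold ker
    have h1 : 7 / 16 ≤ max (pz z) 0 := by
      refine le_trans ?_ (le_max_left _ _)
      unfold pz
      nlinarith [norm_nonneg z]
    exact pow_le_pow_left₀ (by norm_num) h1 2
  · intro z i
    have h1 : fderiv ℝ (fun z : E n => c0 * ker 0 z) z (e i) =
        c0 * -(2 * (((0 : ℕ) : ℝ) + 2) * z i * (max (pz z) 0) ^ (0 + 1)) := by
      rw [fderiv_const_mul (ker_diff 0 z)]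
      rw [smul_apply, smul_eq_mul, ker_fderiv]
    rw [h1]
    show _ ≤ 8 * (c0 * ker 0 ((1 / 2 : ℝ) • z))
    rcases le_or_gt 1 ‖z‖ with hz | hz
    · have h2 : max (pz z) 0 = 0 := by
        refine max_eq_right ?_
        unfold pz
        nlinarith [norm_nonneg z]
      rw [h2]
      have := mul_nonneg hc0p.le (ker_nonneg 0 ((1 / 2 : ℝ) • z))
      simp only [zero_add, pow_one, mul_zero, neg_zero, abs_zero]
      linarith
    · have h2 : |z i| ≤ 1 := (coord_le z i).trans hz.le
      have h3 : max (pz z) 0 ≤ 1 := by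
        refine max_le ?_ zero_le_one
        unfold pz
        nlinarith [norm_nonneg z]
      have h4 : 0 ≤ max (pz z) 0 := le_max_right _ _
      have h5 : (3 / 4 : ℝ) ^ 2 ≤ ker 0 ((1 / 2 : ℝ) • z) := by
        unfold ker
        refine pow_le_pow_left₀ (by norm_num) ?_ 2
        refine le_trans ?_ (le_max_left _ _)
        unfold pz
        rw [norm_smul]
        norm_num
        nlinarith [norm_nonneg z]
      rw [abs_mul, abs_of_pos hc0p, abs_neg, abs_mul, abs_mul, zero_add, pow_one,
        abs_of_nonneg h4]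
      have h6 : |2 * (((0 : ℕ) : ℝ) + 2)| = 4 := by norm_num
      rw [h6]
      have h7 : 4 * |z i| * max (pz z) 0 ≤ 4 := by
        have := mul_le_mul h2 h3 h4 zero_le_one
        linarith
      calc c0 * (4 * |z i| * max (pz z) 0) ≤ c0 * 4 := mul_le_mul_of_nonneg_left h7 hc0p.le
        _ ≤ 8 * (c0 * (3 / 4) ^ 2) := by nlinarith
        _ ≤ 8 * (c0 * ker 0 ((1 / 2 : ℝ) • z)) := by
            have := mul_le_mul_of_nonneg_left h5 hc0p.le
            linarith
  · intro v hv x r _
    refine main_ident v hv x r _ _ (continuous_const.mul (ker_cont 0)) ?_ ?_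
      (contDiff_const.mul (ker_smooth 1)) ?_ ?_
    · intro z hz
      rw [ker_zero 0 z hz, mul_zero]
    · rw [integral_const_mul, hc0]
      exact inv_mul_cancel₀ hI.ne'
    · intro z hz
      rw [ker_zero 1 z hz, mul_zero]
    · intro z i
      rw [fderiv_const_mul (ker_diff 1 z)]
      rw [smul_apply, smul_eq_mul, ker_fderiv]
      unfold ker
      push_cast
      ring

end Pool.Agent.N950.TI
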